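import Pool.Agent.Lib.MP_b1a3a4_al.MVS.TH.Iface

/-! # Module DKDK (13.1) -/

set_option autoImplicit false
set_option linter.all false

namespace Pool.Agent.Lib.MP_b1a3a4_al.MVS.TH.H75

open Finsupp MVS MVS.HO

/-- the sign of an end point -/
def sg (ε : Bool) : ℤ := if ε then 1 else -1

lemma dK_single' {V : Type} {q : ℕ} (c : Lab V (q + 1)) :
    dK (Finsupp.single c 1) = ∑ i : Fin (q + 1), ∑ ε : Bool,
      ((-1 : ℤ) ^ (i : ℕ) * sg ε) • Finsupp.single (fc i ε c) (1 : ℤ) := by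
  rw [dK_single]
  refine Finset.sum_congr rfl fun i _ => ?_
  rw [Fintype.sum_bool]
  simp only [sg, if_true, Bool.false_eq_true, if_false, mul_one, mul_neg, neg_smul, smul_sub]
  rw [sub_eq_add_neg]

lemma dk_ext {V : Type} {q : ℕ} {M : Type} [AddCommGroup M] (f g : Chn V q →ₗ[ℤ] M)
    (h : ∀ c, f (Finsupp.single c 1) = g (Finsupp.single c 1)) (z : Chn V q) : f z = g z := by
  have : f = g := by
    refine Finsupp.lhom_ext' fun c => ?_
    refine LinearMap.ext_ring ?_
    exact h c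
  rw [this]

lemma dk1 (V : Type) (q : ℕ) (z : Chn V (q + 2)) : dK (dK z) = 0 := by
  refine dk_ext (dK ∘ₗ dK) 0 (fun c => ?_) z
  rw [LinearMap.comp_apply, LinearMap.zero_apply, dK_single']
  simp only [map_sum, map_smul, dK_single', Finset.smul_sum, smul_smul]
  -- the four fold sum
  have h1 : ∑ i : Fin (q + 2), ∑ ε : Bool, ∑ j : Fin (q + 1), ∑ δ : Bool,
      (((-1 : ℤ) ^ (i : ℕ) * sg ε) * ((-1 : ℤ) ^ (j : ℕ) * sg δ)) •
        Finsupp.single (fc j δ (fc i ε c)) (1 : ℤ) =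
      ∑ p ∈ (Finset.univ : Finset ((Fin (q + 2) × Fin (q + 1)) × (Bool × Bool))),
      (((-1 : ℤ) ^ ((p.1.1 : ℕ) + (p.1.2 : ℕ))) * (sg p.2.1 * sg p.2.2)) •
        Finsupp.single (fc p.1.2 p.2.2 (fc p.1.1 p.2.1 c)) (1 : ℤ) := by
    rw [← Finset.univ_product_univ, Finset.sum_product, ← Finset.univ_product_univ,
      Finset.sum_product]
    refine Finset.sum_congr rfl fun i _ => ?_
    rw [Finset.sum_comm]
    refine Finset.sum_congr rfl fun j _ => ?_
    rw [← Finset.univ_product_univ, Finset.sum_product]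
    refine Finset.sum_congr rfl fun ε _ => ?_
    refine Finset.sum_congr rfl fun δ _ => ?_
    congr 1
    rw [pow_add]
    ring
  rw [h1]
  refine Finset.sum_involution
    (fun p _ => ((p.1.1.succAbove p.1.2, p.1.2.predAbove p.1.1), (p.2.2, p.2.1))) ?_ ?_ ?_ ?_
  · rintro ⟨⟨i, j⟩, ⟨ε, δ⟩⟩ _
    simp only
    rw [← fc_fc i j ε δ c, Fin.neg_one_pow_succAbove_add_predAbove, ← add_smul]
    have : (-1 : ℤ) ^ ((i : ℕ) + (j : ℕ)) * (sg ε * sg δ) +
        -(-1 : ℤ) ^ ((i : ℕ) + (j : ℕ)) * (sg δ * sg ε) = 0 := by ring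
    rw [this, zero_smul]
  · rintro ⟨⟨i, j⟩, ⟨ε, δ⟩⟩ _ _ h
    simp only [Prod.mk.injEq] at h
    exact Fin.succAbove_ne i j h.1.1
  · intro p _
    exact Finset.mem_univ _
  · rintro ⟨⟨i, j⟩, ⟨ε, δ⟩⟩ _
    simp only [Prod.mk.injEq, and_true]
    exact ⟨Fin.succAbove_succAbove_predAbove i j, Fin.predAbove_predAbove_succAbove i j⟩

lemma dk2 (V : Type) (q : ℕ) (z : Chn V (q + 1)) (hz : SuppIn IsDeg z) :
    SuppIn IsDeg (dK z) := by
  refine hz.map dK fun c hc => ?_
  obtain ⟨i, c', rfl⟩ := hc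
  rw [dK_single]
  refine SuppIn.sum _ fun j _ => SuppIn.smul ?_ _
  rcases Fin.eq_self_or_eq_succAbove i j with rfl | ⟨k, rfl⟩
  · rw [fc_dg, fc_dg, sub_self]
    exact suppIn_zero _
  · cases q with
    | zero => exact k.elim0
    | succ q =>
      rw [fc_dg_ne, fc_dg_ne]
      exact (suppIn_single (isDeg_dg _ _) 1).sub (suppIn_single (isDeg_dg _ _) 1)

lemma dk3 (V V' : Type) (f : V → V') (q : ℕ) (z : Chn V (q + 1)) :
    dK (pushL f z) = pushL f (dK z) := by
  refine dk_ext (dK ∘ₗ pushL f) (pushL f ∘ₗ dK) (fun c => ?_) z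
  rw [LinearMap.comp_apply, LinearMap.comp_apply, pushL_single, dK_single, dK_single]
  simp only [map_sum, map_smul, map_sub, pushL_single]
  rfl

lemma dk4 (V V' : Type) (f : V → V') (q : ℕ) (z : Chn V q) (hz : SuppIn IsDeg z) :
    SuppIn IsDeg (pushL f z) := by
  refine hz.map (pushL f) fun c hc => ?_
  rw [pushL_single]
  refine suppIn_single ?_ 1
  cases q with
  | zero => exact hc.elim
  | succ q =>
    obtain ⟨i, c', rfl⟩ := hc
    exact ⟨i, fun b => f (c' b), rfl⟩

lemma prm_dg {V V' : Type} (f g : V → V') {q : ℕ} (i : Fin (q + 1)) (c : Lab V q) :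
    prm f g (dg i c) = dg i.succ (prm f g c) := by
  funext b
  have h1 : rem i (rem 0 b) = rem 0 (rem i.succ b) := by
    have := rem_rem (0 : Fin (q + 2)) i b
    simpa using this
  have h2 : rem i.succ b 0 = b 0 := by
    rw [rem_apply]
    simp
  simp only [prm, dg]
  rw [h1, h2]

lemma dk5 (V V' : Type) (f g : V → V') (q : ℕ) (z : Chn V q) (hz : SuppIn IsDeg z) :
    SuppIn IsDeg (prL f g z) := by
  refine hz.map (prL f g) fun c hc => ?_
  rw [prL_single]
  refine suppIn_single ?_ 1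
  cases q with
  | zero => exact hc.elim
  | succ q =>
    obtain ⟨i, c', rfl⟩ := hc
    rw [prm_dg]
    exact isDeg_dg _ _

lemma fc_prm_true {V V' : Type} (f g : V → V') {q : ℕ} (c : Lab V q) :
    fc 0 true (prm f g c) = fun b => g (c b) := by
  funext b
  simp [fc, prm]

lemma fc_prm_false {V V' : Type} (f g : V → V') {q : ℕ} (c : Lab V q) :
    fc 0 false (prm f g c) = fun b => f (c b) := by
  funext b
  simp [fc, prm]

lemma fc_prm_succ {V V' : Type} (f g : V → V') {q : ℕ} (c : Lab V (q + 1)) (j : Fin (q + 1))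
    (ε : Bool) : fc j.succ ε (prm f g c) = prm f g (fc j ε c) := by
  funext b
  have h1 : ins j.succ ε b 0 = b 0 := by
    have := ins_succAbove j.succ ε b 0
    simpa using this
  have h2 : rem 0 (ins j.succ ε b) = ins j ε (rem 0 b) := by
    have := rem_ins_ne (0 : Fin (q + 2)) j ε b
    simpa using this
  simp only [fc, prm]
  rw [h1, h2]

lemma dk6 (V V' : Type) (f g : V → V') (z : Chn V 0) :
    dK (prL f g z) = pushL g z - pushL f z := by
  refine dk_ext (dK ∘ₗ prL f g) (pushL g - pushL f) (fun c => ?_) z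
  rw [LinearMap.comp_apply, LinearMap.sub_apply, prL_single, dK_single, pushL_single,
    pushL_single, Fin.sum_univ_one]
  rw [fc_prm_true, fc_prm_false]
  simp

lemma dk7 (V V' : Type) (f g : V → V') (q : ℕ) (z : Chn V (q + 1)) :
    dK (prL f g z) = pushL g z - pushL f z - prL f g (dK z) := by
  refine dk_ext (dK ∘ₗ prL f g) (pushL g - pushL f - prL f g ∘ₗ dK) (fun c => ?_) z
  rw [LinearMap.comp_apply, LinearMap.sub_apply, LinearMap.sub_apply, LinearMap.comp_apply,
    prL_single, dK_single, dK_single, pushL_single, pushL_single, Fin.sum_univ_succ]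
  rw [fc_prm_true, fc_prm_false]
  simp only [Fin.val_zero, pow_zero, one_smul, map_sum, map_smul, map_sub, prL_single,
    fc_prm_succ, Fin.val_succ, pow_succ, mul_neg, mul_one, neg_smul, Finset.sum_neg_distrib]
  rw [← sub_eq_add_neg]

/-- DKDK -/
theorem dkdk : DkdkStatement := ⟨dk1, dk2, dk3, dk4, dk5, dk6, dk7⟩

end Pool.Agent.Lib.MP_b1a3a4_al.MVS.TH.H75
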