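import Pool.Agent.Lib.MP_b1a3a4_al.MVS.TH.Iface

/-! # Module TELE (13.6) -/

set_option autoImplicit false
set_option linter.all false

namespace Pool.Agent.Lib.MP_b1a3a4_al.MVS.TH.H75

open Finsupp MVS MVS.HO

/-- the chain of the layer `a` in direction `i` -/
noncomputable def lay {V : Type} {q : ℕ} (N : ℕ) (G : (Fin (q + 1) → ℕ) → V) (i : Fin (q + 1))
    (a : ℕ) : Chn V q :=
  ∑ p : Fin q → Fin N,
    Finsupp.single (fun b : Fin q → Bool => G (ins i a (fun j => (p j : ℕ) + (b j).toNat))) (1 : ℤ)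

lemma lay_true {V : Type} {q : ℕ} (N : ℕ) (G : (Fin (q + 1) → ℕ) → V) (i : Fin (q + 1)) :
    ∑ p : Fin q → Fin N, Finsupp.single (lab (gf i true N G) (fun j => (p j : ℕ))) (1 : ℤ) =
      lay N G i N := rfl

lemma lay_false {V : Type} {q : ℕ} (N : ℕ) (G : (Fin (q + 1) → ℕ) → V) (i : Fin (q + 1)) :
    ∑ p : Fin q → Fin N, Finsupp.single (lab (gf i false N G) (fun j => (p j : ℕ))) (1 : ℤ) =
      lay N G i 0 := rfl

lemma fc_lab {V : Type} {q : ℕ} (G : (Fin (q + 1) → ℕ) → V) (i : Fin (q + 1)) (ε : Bool)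
    (a : ℕ) (p : Fin q → ℕ) :
    fc i ε (lab G (ins i a p)) = fun b => G (ins i (a + ε.toNat) (fun j => p j + (b j).toNat)) := by
  funext b
  simp only [fc, lab]
  congr 1
  funext j
  rcases Fin.eq_self_or_eq_succAbove i j with rfl | ⟨k, rfl⟩ <;> simp

lemma sum_fc {V : Type} {q : ℕ} (N : ℕ) (G : (Fin (q + 1) → ℕ) → V) (i : Fin (q + 1))
    (ε : Bool) :
    ∑ p : Fin (q + 1) → Fin N, Finsupp.single (fc i ε (lab G (fun j => (p j : ℕ)))) (1 : ℤ) =
      ∑ a ∈ Finset.range N, lay N G i (a + ε.toNat) := by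
  rw [← (Fin.insertNthEquiv (fun _ => Fin N) i).sum_comp, Fintype.sum_prod_type, Finset.sum_range]
  refine Finset.sum_congr rfl fun a _ => ?_
  unfold lay
  refine Finset.sum_congr rfl fun p _ => ?_
  congr 1
  have h1 : (fun j => ((Fin.insertNthEquiv (fun _ => Fin N) i) (a, p) j : ℕ)) =
      ins i (a : ℕ) (fun j => (p j : ℕ)) := by
    funext j
    rcases Fin.eq_self_or_eq_succAbove i j with rfl | ⟨k, rfl⟩ <;> simp
  rw [h1, fc_lab]

lemma tele1 (V : Type) (q N : ℕ) (G : (Fin (q + 1) → ℕ) → V) :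
    ∑ p : Fin (q + 1) → Fin N, dK (Finsupp.single (lab G (fun j => (p j : ℕ))) 1) = bch N G := by
  simp only [dK_single]
  rw [Finset.sum_comm]
  unfold bch
  refine Finset.sum_congr rfl fun i _ => ?_
  rw [← Finset.smul_sum, Finset.sum_sub_distrib, sum_fc, sum_fc, lay_true, lay_false,
    ← Finset.sum_sub_distrib]
  congr 1
  exact Finset.sum_range_sub (fun a => lay N G i a) N

/-- TELE -/
theorem tele (h : DkdkStatement) : TeleStatement := by
  refine ⟨tele1, fun V q N G => ?_⟩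
  rw [← tele1, map_sum]
  exact Finset.sum_eq_zero fun p _ => h.1 V q _

end Pool.Agent.Lib.MP_b1a3a4_al.MVS.TH.H75
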